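import Pool.Agent.Q87.Finitary.Dyadic

/-!
# Transitive Sylow subgroups without transitive subgroups having the cyclic-block property
-/

namespace Pool.Agent.Results.MP_f6f917_al.NoCyclicBlockSubgroup

open Pool.Agent.Q87.Finitary MulAction

/-- `H` acts transitively on `Ω`. -/
def IsTrans {Ω : Type} (H : Subgroup (Equiv.Perm Ω)) : Prop := ∀ x y : Ω, ∃ h ∈ H, h x = y

/-- `B` is a block for `H`: it is nonempty and every element of `H` maps it onto itself or onto a
set disjoint from it. -/
def IsBlockOf {Ω : Type} (H : Subgroup (Equiv.Perm Ω)) (B : Set Ω) : Prop :=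
  B.Nonempty ∧ ∀ h ∈ H, h '' B = B ∨ Disjoint (h '' B) B

/-- `H` is totally imprimitive: it is transitive and every finite subset of `Ω` is contained in a
finite block for `H`. -/
def TotallyImprimitive {Ω : Type} (H : Subgroup (Equiv.Perm Ω)) : Prop :=
  IsTrans H ∧ ∀ F : Set Ω, F.Finite → ∃ B : Set Ω, B.Finite ∧ F ⊆ B ∧ IsBlockOf H B

/-- The cyclic-block property: `H` is a totally imprimitive `p`-group of finitary permutations and
the support of each cycle of each element of `H` (fixed points being cycles of length one) is a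
block for `H`. -/
def CyclicBlockProperty {Ω : Type} (p : ℕ) (H : Subgroup (Equiv.Perm Ω)) : Prop :=
  TotallyImprimitive H ∧ IsPGroup p H ∧ (∀ h ∈ H, {x : Ω | h x ≠ x}.Finite) ∧
    ∀ h ∈ H, ∀ x : Ω, IsBlockOf H {y | h.SameCycle x y}

/-- The finite set on which the building block acts. -/
abbrev Del : Type := W0 ⧸ Subgroup.zpowers vee

/-- The wreath product of the building block with the dyadic group. -/
def big : Subgroup (Equiv.Perm (Del × ℕ)) where
  carrier := {w | ∃ t ∈ dyad, ∃ f : ℕ → W0, {n | f n ≠ 1}.Finite ∧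
    ∀ δ n, w (δ, n) = (f n • δ, t n)}
  one_mem' := ⟨1, one_mem _, fun _ => 1, by simp, fun δ n => by simp⟩
  mul_mem' := by
    rintro a b ⟨t, ht, f, hf, hw⟩ ⟨t', ht', f', hf', hw'⟩
    refine ⟨t * t', mul_mem ht ht', fun n => f (t' n) * f' n, ?_, fun δ n => ?_⟩
    · refine ((hf.preimage (t'.injective.injOn)).union hf').subset ?_
      intro n hn
      by_contra hcon
      have h1 : f (t' n) = 1 := by
        by_contra h; exact hcon (Or.inl h)
      have h2 : f' n = 1 := by
        by_contra h; exact hcon (Or.inr h)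
      exact hn (by
        change f (t' n) * f' n = 1
        rw [h1, h2, mul_one])
    · rw [Equiv.Perm.mul_apply, hw', hw, mul_smul]; rfl
  inv_mem' := by
    rintro a ⟨t, ht, f, hf, hw⟩
    refine ⟨t⁻¹, inv_mem ht, fun n => (f (t⁻¹ n))⁻¹, ?_, fun δ n => ?_⟩
    · refine (hf.preimage ((t⁻¹).injective.injOn)).subset ?_
      intro n hn h
      exact hn (by
        change (f (t⁻¹ n))⁻¹ = 1
        rw [h, inv_one])
    · rw [Equiv.Perm.inv_eq_iff_eq, hw, smul_inv_smul]
      have : t (t⁻¹ n) = n := t.apply_symm_apply n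
      rw [this]

lemma big_isPGroup : IsPGroup 2 big := by
  rintro ⟨w, t, ht, f, hf, hw⟩
  obtain ⟨n, hn⟩ := dyad_pow ht
  -- powers of `w`
  have key : ∀ m : ℕ, ∃ g : ℕ → W0, ∀ δ k, (w ^ m) (δ, k) = (g k • δ, (t ^ m) k) := by
    intro m
    induction m with
    | zero => exact ⟨fun _ => 1, fun δ k => by simp⟩
    | succ m ih =>
      obtain ⟨g, hg⟩ := ih
      refine ⟨fun k => f ((t ^ m) k) * g k, fun δ k => ?_⟩
      rw [pow_succ', Equiv.Perm.mul_apply, hg, hw, pow_succ', Equiv.Perm.mul_apply, mul_smul]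
  obtain ⟨g, hg⟩ := key (2 ^ n)
  have key2 : ∀ m : ℕ, ∀ δ k, ((w ^ 2 ^ n) ^ m) (δ, k) = (g k ^ m • δ, k) := by
    intro m
    induction m with
    | zero => intro δ k; simp
    | succ m ih =>
      intro δ k
      rw [pow_succ', Equiv.Perm.mul_apply, ih, hg, hn, pow_succ', mul_smul]
      rfl
  have hcard : Nat.card W0 = 2 ^ 6 := by rw [RegularWreathProduct.card]; simp
  refine ⟨n + 6, Subtype.ext ?_⟩
  change w ^ 2 ^ (n + 6) = 1
  ext1 ⟨δ, k⟩
  rw [pow_add, pow_mul, key2]
  have : g k ^ 2 ^ 6 = 1 := by rw [← hcard]; exact pow_card_eq_one'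
  rw [this, one_smul]
  rfl

/-- There are an infinite set `Ω`, a transitive group `G` of finitary permutations of `Ω` and a
transitive Sylow 2-subgroup `S` of `G` such that no transitive subgroup of `S` has the cyclic-block
property. -/
theorem result : ∃ (Ω : Type) (_ : Infinite Ω) (G : Subgroup (Equiv.Perm Ω)) (S : Sylow 2 G),
    (∀ g ∈ G, {x : Ω | g x ≠ x}.Finite) ∧ IsTrans G ∧
    IsTrans ((S : Subgroup G).map G.subtype) ∧
    ∀ H : Subgroup (Equiv.Perm Ω), H ≤ (S : Subgroup G).map G.subtype → IsTrans H →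
      ¬ CyclicBlockProperty 2 H := by
  classical
  have hDel : Nonempty Del := ⟨QuotientGroup.mk 1⟩
  have hinf : Infinite (Del × ℕ) := inferInstance
  let S : Sylow 2 big := ⟨⊤, big_isPGroup.to_subgroup ⊤, fun _ h => le_antisymm le_top h⟩
  have hS : (S : Subgroup big).map big.subtype = big := by
    change (⊤ : Subgroup big).map big.subtype = big
    rw [← MonoidHom.range_eq_map, Subgroup.range_subtype]
  have htr : IsTrans big := by
    rintro ⟨δ, n⟩ ⟨δ', n'⟩
    obtain ⟨t, ht, htn⟩ := dyad_transitive n n'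
    obtain ⟨s, hs⟩ := exists_smul_eq W0 δ δ'
    let w : Equiv.Perm (Del × ℕ) :=
      { toFun := fun x => ((if x.2 = n then s else 1) • x.1, t x.2)
        invFun := fun x => ((if t⁻¹ x.2 = n then s else 1)⁻¹ • x.1, t⁻¹ x.2)
        left_inv := by
          rintro ⟨δ, k⟩
          have : t⁻¹ (t k) = k := t.symm_apply_apply k
          simp only [this, inv_smul_smul]
        right_inv := by
          rintro ⟨δ, k⟩
          have : t (t⁻¹ k) = k := t.apply_symm_apply k
          simp only [this, smul_inv_smul] }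
    refine ⟨w, ⟨t, ht, fun k => if k = n then s else 1, ?_, fun δ k => rfl⟩, ?_⟩
    · refine (Set.finite_singleton n).subset ?_
      intro k hk
      by_contra hne
      exact hk (if_neg hne)
    · change ((if n = n then s else 1) • δ, t n) = _
      rw [if_pos rfl, hs, htn]
  refine ⟨Del × ℕ, hinf, big, S, ?_, htr, by rw [hS]; exact htr, ?_⟩
  · rintro w ⟨t, ht, f, hf, hw⟩
    refine (Set.Finite.prod (Set.finite_univ (α := Del)) (hf.union ht.1)).subset ?_
    rintro ⟨δ, n⟩ hx
    refine ⟨trivial, ?_⟩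
    by_contra hcon
    have h1 : f n = 1 := by
      by_contra h; exact hcon (Or.inl h)
    have h2 : t n = n := by
      by_contra h; exact hcon (Or.inr h)
    exact hx (by rw [hw, h1, h2, one_smul])
  · intro H hH htH hcb
    rw [hS] at hH
    obtain ⟨_, _, _, hcyc⟩ := hcb
    -- the subgroup of `W0` realised on the first fibre
    let K : Subgroup W0 :=
      { carrier := {s | ∃ h ∈ H, ∀ δ : Del, h (δ, 0) = (s • δ, 0)}
        one_mem' := ⟨1, one_mem _, fun δ => by simp⟩
        mul_mem' := by
          rintro a b ⟨h, hh, e⟩ ⟨h', hh', e'⟩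
          exact ⟨h * h', mul_mem hh hh', fun δ => by rw [Equiv.Perm.mul_apply, e', e, mul_smul]⟩
        inv_mem' := by
          rintro a ⟨h, hh, e⟩
          refine ⟨h⁻¹, inv_mem hh, fun δ => ?_⟩
          rw [Equiv.Perm.inv_eq_iff_eq, e, smul_inv_smul] }
    have hK : Subgroup.closure (insert vee (K : Set W0)) = ⊤ := by
      rw [eq_top_iff]
      intro s _
      obtain ⟨h, hh, e⟩ := htH ((QuotientGroup.mk 1 : Del), 0) ((QuotientGroup.mk s : Del), 0)
      obtain ⟨t, ht, f, hf, hw⟩ := hH hh
      rw [hw] at e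
      have e1 := congrArg Prod.fst e
      have e2 : t 0 = 0 := congrArg Prod.snd e
      have hk : f 0 ∈ K := ⟨h, hh, fun δ => by rw [hw, e2]⟩
      have e3 : (QuotientGroup.mk (f 0) : Del) = QuotientGroup.mk s := by
        have : f 0 • (QuotientGroup.mk 1 : Del) = QuotientGroup.mk (f 0 * 1) := rfl
        rw [mul_one] at this
        rw [← this]; exact e1
      rw [QuotientGroup.eq] at e3
      obtain ⟨j, hj⟩ := Subgroup.mem_zpowers_iff.1 e3
      have e4 : s = f 0 * vee ^ j := by rw [hj]; group
      rw [e4]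
      refine mul_mem (Subgroup.subset_closure (Or.inr hk)) (Subgroup.zpow_mem _ ?_ j)
      exact Subgroup.subset_closure (Or.inl rfl)
    have hfinW : Finite W0 := inferInstance
    have hKtop : K = ⊤ := by
      have := mem_closure_of_mem_commutator W0_isPGroup (K : Set W0) vee vee_mem hK
      rwa [Subgroup.closure_eq] at this
    have hall : ∀ s : W0, ∃ h ∈ H, ∀ δ : Del, h (δ, 0) = (s • δ, 0) := by
      intro s
      have : s ∈ K := by rw [hKtop]; trivial
      exact this
    obtain ⟨hs, hsH, es⟩ := hall sig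
    obtain ⟨hv, hvH, ev⟩ := hall vee
    let x0 : Del × ℕ := ((QuotientGroup.mk 1 : Del), 0)
    have hpw : ∀ i : ℤ, (hs ^ i) x0 = ((QuotientGroup.mk (sig ^ i) : Del), 0) := by
      have hn : ∀ (i : ℕ) (δ : Del), (hs ^ i) (δ, 0) = (sig ^ i • δ, 0) := by
        intro i
        induction i with
        | zero => intro δ; simp
        | succ i ih =>
          intro δ
          rw [pow_succ', Equiv.Perm.mul_apply, ih, es, pow_succ', mul_smul]
      intro i
      obtain ⟨n, rfl | rfl⟩ := i.eq_nat_or_neg
      · rw [zpow_natCast, hn, zpow_natCast]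
        congr 1
        change (QuotientGroup.mk (sig ^ n * 1) : Del) = _
        rw [mul_one]
      · rw [zpow_neg, zpow_natCast, Equiv.Perm.inv_eq_iff_eq, zpow_neg, zpow_natCast, hn]
        change x0 = ((QuotientGroup.mk (sig ^ n * (sig ^ n)⁻¹) : Del), 0)
        rw [mul_inv_cancel]
    have hblock := (hcyc hs hsH x0).2 hv hvH
    have hvx : hv x0 = x0 := by
      change hv ((QuotientGroup.mk 1 : Del), 0) = _
      rw [ev]
      change ((QuotientGroup.mk (vee * 1) : Del), 0) = _
      have : (QuotientGroup.mk (vee * 1) : Del) = QuotientGroup.mk 1 := by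
        rw [eq_comm, QuotientGroup.eq]
        simp
      rw [this]
    have hx0 : x0 ∈ {y | hs.SameCycle x0 y} := Equiv.Perm.SameCycle.refl _ _
    have himg : hv '' {y | hs.SameCycle x0 y} = {y | hs.SameCycle x0 y} := by
      rcases hblock with h | h
      · exact h
      · exfalso
        exact (Set.disjoint_left.1 h) ⟨x0, hx0, hvx⟩ hx0
    have hmem : hv (hs x0) ∈ {y | hs.SameCycle x0 y} := by
      rw [← himg]
      exact ⟨hs x0, ⟨1, by simp⟩, rfl⟩
    obtain ⟨i, hi⟩ := hmem
    have h1 : hv (hs x0) = ((QuotientGroup.mk (vee * sig) : Del), 0) := by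
      have : hs x0 = ((QuotientGroup.mk sig : Del), 0) := by
        have := hpw 1
        simpa using this
      rw [this, ev]
      rfl
    rw [hpw, h1] at hi
    have h2 : (QuotientGroup.mk (sig ^ i) : Del) = QuotientGroup.mk (vee * sig) :=
      congrArg Prod.fst hi
    rw [QuotientGroup.eq, ← mul_assoc] at h2
    exact vee_sig i h2

end Pool.Agent.Results.MP_f6f917_al.NoCyclicBlockSubgroup
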